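import Pool.Agent.H74.OneP.UStmts

/-! Module U4: inserting vertices into faces gives valid data. -/

namespace Pool.Agent.H74.OneP

open Equiv Equiv.Perm Drawing

namespace U4

variable {M : Drawing} {S : Set M.F}

theorem dcases (d : (M.cone S).D) : (∃ a : M.D, d = (Sum.inl a : M.D ⊕ (M.TS S ⊕ M.TS S))) ∨
    (∃ t : M.TS S, d = (Sum.inr (Sum.inl t) : M.D ⊕ (M.TS S ⊕ M.TS S))) ∨
    ∃ t : M.TS S, d = (Sum.inr (Sum.inr t) : M.D ⊕ (M.TS S ⊕ M.TS S)) := by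
  have key : ∀ d : M.D ⊕ (M.TS S ⊕ M.TS S),
      (∃ a, d = Sum.inl a) ∨ (∃ t, d = Sum.inr (Sum.inl t)) ∨ ∃ t, d = Sum.inr (Sum.inr t) := by
    rintro (a | t | t)
    · exact Or.inl ⟨a, rfl⟩
    · exact Or.inr (Or.inl ⟨t, rfl⟩)
    · exact Or.inr (Or.inr ⟨t, rfl⟩)
  exact key d

open Classical in
theorem rot_inl_pos {d : M.D} (hd : M.fac d ∈ S ∧ ¬ M.cr d) :
    M.coneRot S (Sum.inl d) = Sum.inr (Sum.inl ⟨d, hd⟩) := by
  change (if h : M.fac d ∈ S ∧ ¬ M.cr d then Sum.inr (Sum.inl ⟨d, h⟩) else Sum.inl (M.rot d) :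
    M.D ⊕ (M.TS S ⊕ M.TS S)) = _
  rw [dif_pos hd]

open Classical in
theorem rot_inl_neg {d : M.D} (hd : ¬ (M.fac d ∈ S ∧ ¬ M.cr d)) :
    M.coneRot S (Sum.inl d) = Sum.inl (M.rot d) := by
  change (if h : M.fac d ∈ S ∧ ¬ M.cr d then Sum.inr (Sum.inl ⟨d, h⟩) else Sum.inl (M.rot d) :
    M.D ⊕ (M.TS S ⊕ M.TS S)) = _
  rw [dif_neg hd]

theorem rot_so (t : M.TS S) : M.coneRot S (Sum.inr (Sum.inl t)) = Sum.inl (M.rot t.1) := rfl

theorem rot_si (t : M.TS S) :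
    M.coneRot S (Sum.inr (Sum.inr t)) = Sum.inr (Sum.inr (nextT S t)) := rfl

theorem rotinv_so (t : M.TS S) : (M.coneRot S)⁻¹ (Sum.inr (Sum.inl t)) = Sum.inl t.1 := rfl

theorem rotinv_si (t : M.TS S) :
    (M.coneRot S)⁻¹ (Sum.inr (Sum.inr t)) = Sum.inr (Sum.inr ((nextT S).symm t)) := rfl

open Classical in
theorem rotinv_inl_pos {d : M.D} (hd : M.fac (M.rot.symm d) ∈ S ∧ ¬ M.cr (M.rot.symm d)) :
    (M.coneRot S)⁻¹ (Sum.inl d) = Sum.inr (Sum.inl ⟨M.rot.symm d, hd⟩) := by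
  change (if h : M.fac (M.rot.symm d) ∈ S ∧ ¬ M.cr (M.rot.symm d) then
    Sum.inr (Sum.inl ⟨M.rot.symm d, h⟩) else Sum.inl (M.rot.symm d) :
    M.D ⊕ (M.TS S ⊕ M.TS S)) = _
  rw [dif_pos hd]

open Classical in
theorem rotinv_inl_neg {d : M.D} (hd : ¬ (M.fac (M.rot.symm d) ∈ S ∧ ¬ M.cr (M.rot.symm d))) :
    (M.coneRot S)⁻¹ (Sum.inl d) = Sum.inl (M.rot.symm d) := by
  change (if h : M.fac (M.rot.symm d) ∈ S ∧ ¬ M.cr (M.rot.symm d) then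
    Sum.inr (Sum.inl ⟨M.rot.symm d, h⟩) else Sum.inl (M.rot.symm d) :
    M.D ⊕ (M.TS S ⊕ M.TS S)) = _
  rw [dif_neg hd]

theorem fac_inl_not {d : M.D} (hf : M.fac d ∉ S) :
    (M.cone S).fac (Sum.inl d : M.D ⊕ (M.TS S ⊕ M.TS S)) =
      (Sum.inl ⟨M.fac d, hf⟩ : {f : M.F // f ∉ S} ⊕ M.TS S) := by
  simp only [cone, hf, dite_false]

theorem fac_inl {d : M.D} (hf : M.fac d ∈ S) (hc : ¬ M.cr d) :
    (M.cone S).fac (Sum.inl d : M.D ⊕ (M.TS S ⊕ M.TS S)) =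
      (Sum.inr ⟨d, hf, hc⟩ : {f : M.F // f ∉ S} ⊕ M.TS S) := by
  simp only [cone, hf, hc, dite_true, dite_false]

theorem fac_inl_cr {d : M.D} (hf : M.fac d ∈ S) (hc : M.cr d) :
    (M.cone S).fac (Sum.inl d : M.D ⊕ (M.TS S ⊕ M.TS S)) =
      (Sum.inr ⟨preal d, by rw [fac_preal]; exact hf, not_cr_preal _⟩ :
        {f : M.F // f ∉ S} ⊕ M.TS S) := by
  simp only [cone, hf, hc, dite_true]

theorem nreal_cr {d : M.D} (hc : M.cr (M.nxt d)) : preal (M.nxt d) = d := by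
  unfold preal
  have : ¬ M.cr d := by
    intro h; exact not_cr_nxt h hc
  simp [this]

theorem preal_nxt {d : M.D} (hc : M.cr d) : preal (M.nxt d) = preal d := by
  have h1 : ¬ M.cr (M.nxt.symm d) := not_cr_nxtinv hc
  unfold preal
  simp [hc, h1]

theorem preal_nxt' {d : M.D} (hc : ¬ M.cr d) : preal (M.nxt d) = d := by
  unfold preal
  simp [hc]

theorem fac_nxt_cone (d : M.D) :
    (M.cone S).fac ((M.coneRot S)⁻¹ (Sum.inl (M.rev d))) =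
      (M.cone S).fac (Sum.inl d : M.D ⊕ (M.TS S ⊕ M.TS S)) := by
  have e : M.rot.symm (M.rev d) = M.nxt d := rfl
  by_cases hf : M.fac d ∈ S
  · by_cases hn : M.cr (M.nxt d)
    · have hd : ¬ M.cr d := fun h => not_cr_nxt h hn
      rw [rotinv_inl_neg (by rw [e]; simp [hn]), e, fac_inl hf hd,
        fac_inl_cr (by simpa using hf) hn]
      congr 1
      exact Subtype.ext (preal_nxt' hd)
    · rw [rotinv_inl_pos (by rw [e]; simp [hn, hf])]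
      change (Sum.inr ((nextT S).symm _) : {f : M.F // f ∉ S} ⊕ M.TS S) = _
      by_cases hd : M.cr d
      · rw [fac_inl_cr hf hd]
        congr 1
        exact Subtype.ext (preal_nxt hd)
      · rw [fac_inl hf hd]
        congr 1
        exact Subtype.ext (preal_nxt' hd)
  · rw [rotinv_inl_neg (by rw [e]; simp [hf]), e, fac_inl_not hf, fac_inl_not (by simpa using hf)]
    congr 1
    exact Subtype.ext (fac_nxt d)

instance : Finite (M.TS S) := by unfold Drawing.TS; infer_instance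

theorem org_cr {d : (M.cone S).D} {x : (M.cone S).X} (hd : (M.cone S).org d = Sum.inr x) :
    ∃ a : M.D, d = (Sum.inl a : M.D ⊕ (M.TS S ⊕ M.TS S)) ∧ M.org a = Sum.inr x := by
  have key : ∀ (p : M.V ⊕ M.X) (x : M.X),
      (Sum.map Sum.inl id p : (M.V ⊕ S) ⊕ M.X) = Sum.inr x → p = Sum.inr x := by
    rintro (p | p) x e <;> simp at e ⊢; exact e
  rcases dcases d with ⟨a, rfl⟩ | ⟨t, rfl⟩ | ⟨t, rfl⟩
  · exact ⟨a, rfl, key _ _ hd⟩
  · exact absurd ⟨x, key _ _ hd⟩ t.2.2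
  · exact absurd hd Sum.inl_ne_inr

end U4

open U4 in
/-- U4 -/
theorem u4 : ConeValidStmt := by
  intro M _ S _
  have iV : Finite (M.V ⊕ S) := inferInstance
  have iF : Finite ({f : M.F // f ∉ S} ⊕ M.TS S) := inferInstance
  have iD : Finite (M.D ⊕ (M.TS S ⊕ M.TS S)) := inferInstance
  refine ⟨iV, M.finX, iF, iD, ?_, ?_, ?_, ?_, ?_, ?_, ?_, ?_, ?_, ?_, ?_⟩
  · have key : ∀ p : (M.V ⊕ S) ⊕ M.X, ∃ d, (M.cone S).org d = p := by
      rintro ((v | f) | x)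
      · obtain ⟨d, hd⟩ := M.org_surj (Sum.inl v)
        exact ⟨(Sum.inl d : M.D ⊕ (M.TS S ⊕ M.TS S)), by
          change (Sum.map Sum.inl id (M.org d) : (M.V ⊕ S) ⊕ M.X) = _
          rw [hd]; rfl⟩
      · obtain ⟨d, hd⟩ := M.fac_surj f.1
        obtain ⟨t, ht, htc⟩ : ∃ t, M.fac t = f.1 ∧ ¬ M.cr t := by
          by_cases hc : M.cr d
          · exact ⟨M.nxt d, by rw [fac_nxt, hd], not_cr_nxt hc⟩
          · exact ⟨d, hd, hc⟩
        refine ⟨(Sum.inr (Sum.inr ⟨t, ht ▸ f.2, htc⟩) : M.D ⊕ (M.TS S ⊕ M.TS S)), ?_⟩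
        change (Sum.inl (Sum.inr ⟨M.fac t, _⟩) : (M.V ⊕ S) ⊕ M.X) = _
        congr 2
        exact Subtype.ext ht
      · obtain ⟨d, hd⟩ := M.org_surj (Sum.inr x)
        exact ⟨(Sum.inl d : M.D ⊕ (M.TS S ⊕ M.TS S)), by
          change (Sum.map Sum.inl id (M.org d) : (M.V ⊕ S) ⊕ M.X) = _
          rw [hd]; rfl⟩
    exact key
  · have key : ∀ f : {f : M.F // f ∉ S} ⊕ M.TS S, ∃ d, (M.cone S).fac d = f := by
      rintro (⟨f, hf⟩ | t)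
      · obtain ⟨d, rfl⟩ := M.fac_surj f
        exact ⟨(Sum.inl d : M.D ⊕ (M.TS S ⊕ M.TS S)), fac_inl_not hf⟩
      · exact ⟨(Sum.inr (Sum.inr t) : M.D ⊕ (M.TS S ⊕ M.TS S)), rfl⟩
    exact key
  · intro d
    rcases dcases d with ⟨a, rfl⟩ | ⟨t, rfl⟩ | ⟨t, rfl⟩
    · change (M.cone S).org (M.coneRot S (Sum.inl a)) = _
      by_cases ha : M.fac a ∈ S ∧ ¬ M.cr a
      · rw [rot_inl_pos ha]; rfl
      · rw [rot_inl_neg ha]
        change (Sum.map Sum.inl id (M.org (M.rot a)) : (M.V ⊕ S) ⊕ M.X) = _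
        rw [org_rot]; rfl
    · change (Sum.map Sum.inl id (M.org (M.rot t.1)) : (M.V ⊕ S) ⊕ M.X) = _
      rw [org_rot]; rfl
    · change (Sum.inl (Sum.inr ⟨M.fac (nreal t.1), _⟩) : (M.V ⊕ S) ⊕ M.X) =
        Sum.inl (Sum.inr ⟨M.fac t.1, _⟩)
      congr 2
      exact Subtype.ext (fac_nreal t.1)
  · intro d
    rcases dcases d with ⟨a, rfl⟩ | ⟨t, rfl⟩ | ⟨t, rfl⟩
    · exact fac_nxt_cone a
    · rfl
    · exact fac_inl t.2.1 t.2.2
  · intro d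
    rcases dcases d with ⟨a, rfl⟩ | ⟨t, rfl⟩ | ⟨t, rfl⟩
    · change (Sum.inl (M.rev (M.rev a)) : M.D ⊕ (M.TS S ⊕ M.TS S)) = Sum.inl a
      rw [M.rev_rev]
    · rfl
    · rfl
  · intro d
    rcases dcases d with ⟨a, rfl⟩ | ⟨t, rfl⟩ | ⟨t, rfl⟩
    · change (Sum.inl (M.rev a) : M.D ⊕ (M.TS S ⊕ M.TS S)) ≠ Sum.inl a
      intro e; exact M.rev_ne a (Sum.inl_injective e)
    · change (Sum.inr (Sum.inr t) : M.D ⊕ (M.TS S ⊕ M.TS S)) ≠ Sum.inr (Sum.inl t)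
      simp
    · change (Sum.inr (Sum.inl t) : M.D ⊕ (M.TS S ⊕ M.TS S)) ≠ Sum.inr (Sum.inr t)
      simp
  · intro s hs hcl
    have c1 : ∀ a : M.D, (Sum.inl a : M.D ⊕ (M.TS S ⊕ M.TS S)) ∈ s →
        (Sum.inl (M.rot a) : M.D ⊕ (M.TS S ⊕ M.TS S)) ∈ s := by
      intro a ha
      have h1 : M.coneRot S (Sum.inl a) ∈ s := (hcl _ ha).1
      by_cases hc : M.fac a ∈ S ∧ ¬ M.cr a
      · rw [rot_inl_pos hc] at h1
        exact (hcl _ h1).1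
      · rwa [rot_inl_neg hc] at h1
    have c2 : ∀ a : M.D, (Sum.inl a : M.D ⊕ (M.TS S ⊕ M.TS S)) ∈ s →
        (Sum.inl (M.rev a) : M.D ⊕ (M.TS S ⊕ M.TS S)) ∈ s := fun a ha => (hcl _ ha).2
    have c3 : ∀ t : M.TS S, (Sum.inr (Sum.inl t) : M.D ⊕ (M.TS S ⊕ M.TS S)) ∈ s →
        (Sum.inl (M.rot t.1) : M.D ⊕ (M.TS S ⊕ M.TS S)) ∈ s := fun t ht => (hcl _ ht).1
    have c4 : ∀ t : M.TS S, (Sum.inr (Sum.inr t) : M.D ⊕ (M.TS S ⊕ M.TS S)) ∈ s →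
        (Sum.inr (Sum.inl t) : M.D ⊕ (M.TS S ⊕ M.TS S)) ∈ s := fun t ht => (hcl _ ht).2
    have hne : ({a : M.D | (Sum.inl a : M.D ⊕ (M.TS S ⊕ M.TS S)) ∈ s} : Set M.D).Nonempty := by
      obtain ⟨x, hx⟩ := hs
      rcases dcases x with ⟨a, rfl⟩ | ⟨t, rfl⟩ | ⟨t, rfl⟩
      · exact ⟨a, hx⟩
      · exact ⟨_, c3 t hx⟩
      · exact ⟨_, c3 t (c4 t hx)⟩
    have huniv := M.conn _ hne (fun a ha => ⟨c1 a ha, c2 a ha⟩)
    have h0 : ∀ a : M.D, (Sum.inl a : M.D ⊕ (M.TS S ⊕ M.TS S)) ∈ s := fun a => by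
      have : a ∈ ({a : M.D | (Sum.inl a : M.D ⊕ (M.TS S ⊕ M.TS S)) ∈ s} : Set M.D) := by
        rw [huniv]; trivial
      exact this
    have h1 : ∀ t : M.TS S, (Sum.inr (Sum.inl t) : M.D ⊕ (M.TS S ⊕ M.TS S)) ∈ s := fun t => by
      have := (hcl _ (h0 t.1)).1
      change M.coneRot S (Sum.inl t.1) ∈ s at this
      rw [rot_inl_pos t.2] at this
      exact this
    have h2 : ∀ t : M.TS S, (Sum.inr (Sum.inr t) : M.D ⊕ (M.TS S ⊕ M.TS S)) ∈ s := fun t =>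
      (hcl _ (h1 t)).2
    refine Set.eq_univ_of_forall fun x => ?_
    rcases dcases x with ⟨a, rfl⟩ | ⟨t, rfl⟩ | ⟨t, rfl⟩
    · exact h0 a
    · exact h1 t
    · exact h2 t
  · change Nat.card (M.D ⊕ (M.TS S ⊕ M.TS S)) + 4 ≤ 2 * (Nat.card (M.V ⊕ S) + Nat.card M.X +
      Nat.card ({f : M.F // f ∉ S} ⊕ M.TS S))
    rw [Nat.card_sum, Nat.card_sum, Nat.card_sum, Nat.card_sum]
    have he := M.euler
    have hS : Nat.card S + Nat.card {f : M.F // f ∉ S} = Nat.card M.F := by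
      classical
      rw [← Nat.card_sum]
      exact Nat.card_congr (Equiv.Set.sumCompl S)
    omega
  · intro d x hd
    obtain ⟨a, rfl, ha⟩ := org_cr hd
    have hc : M.cr a := ⟨x, ha⟩
    change M.coneRot S (M.coneRot S (M.coneRot S (M.coneRot S (Sum.inl a)))) = Sum.inl a
    rw [rot_inl_neg (by simp [hc]), rot_inl_neg (by simp [hc]), rot_inl_neg (by simp [hc]),
      rot_inl_neg (by simp [hc]), cr_four hc]
  · intro d x hd
    obtain ⟨a, rfl, ha⟩ := org_cr hd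
    have hc : M.cr a := ⟨x, ha⟩
    change M.coneRot S (M.coneRot S (Sum.inl a)) ≠ Sum.inl a
    rw [rot_inl_neg (by simp [hc]), rot_inl_neg (by simp [hc])]
    intro e
    exact cr_two hc (Sum.inl_injective e)
  · intro d x hd
    obtain ⟨a, rfl, ha⟩ := org_cr hd
    obtain ⟨v, hv⟩ := M.cross_rev a x ha
    refine ⟨(Sum.inl v : M.V ⊕ S), ?_⟩
    change (Sum.map Sum.inl id (M.org (M.rev a)) : (M.V ⊕ S) ⊕ M.X) = _
    rw [hv]; rfl

end Pool.Agent.H74.OneP
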