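import Pool.Agent.H74.OneP.UStmts

/-! Module U5: inserting vertices into faces gives a good drawing again. -/

namespace Pool.Agent.H74.OneP

open Equiv Equiv.Perm Drawing

namespace U5

variable {M : Drawing} {S : Set M.F}

/-- the new drawing -/
noncomputable abbrev N (h : (M.cone S).Exact) : Drawing := (M.cone S).toDrawing h

/-- old darts -/
def od (h : (M.cone S).Exact) (d : M.D) : (N h).D := (Sum.inl d : M.D ⊕ (M.TS S ⊕ M.TS S))

/-- spokes leaving an old vertex -/
def so (h : (M.cone S).Exact) (t : M.TS S) : (N h).D :=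
  (Sum.inr (Sum.inl t) : M.D ⊕ (M.TS S ⊕ M.TS S))

/-- spokes leaving a new vertex -/
def si (h : (M.cone S).Exact) (t : M.TS S) : (N h).D :=
  (Sum.inr (Sum.inr t) : M.D ⊕ (M.TS S ⊕ M.TS S))

variable (h : (M.cone S).Exact)

theorem dcases (d : (N h).D) : (∃ a, d = od h a) ∨ (∃ t, d = so h t) ∨ ∃ t, d = si h t := by
  have key : ∀ d : M.D ⊕ (M.TS S ⊕ M.TS S),
      (∃ a, d = Sum.inl a) ∨ (∃ t, d = Sum.inr (Sum.inl t)) ∨ ∃ t, d = Sum.inr (Sum.inr t) := by
    rintro (a | t | t)
    · exact Or.inl ⟨a, rfl⟩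
    · exact Or.inr (Or.inl ⟨t, rfl⟩)
    · exact Or.inr (Or.inr ⟨t, rfl⟩)
  exact key d

/-- old points in the new drawing -/
def op (h : (M.cone S).Exact) (p : M.V ⊕ M.X) : (N h).V ⊕ (N h).X :=
  (Sum.map Sum.inl id p : (M.V ⊕ S) ⊕ M.X)

/-- new vertices -/
def np (h : (M.cone S).Exact) (f : S) : (N h).V ⊕ (N h).X :=
  (Sum.inl (Sum.inr f) : (M.V ⊕ S) ⊕ M.X)

theorem op_inj {p q : M.V ⊕ M.X} (e : op h p = op h q) : p = q := by
  have key : ∀ p q : M.V ⊕ M.X, (Sum.map Sum.inl id p : (M.V ⊕ S) ⊕ M.X) = Sum.map Sum.inl id q →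
      p = q := by
    rintro (p | p) (q | q) e <;> simp at e ⊢ <;> exact e
  exact key p q e

theorem np_inj {p q : S} (e : np h p = np h q) : p = q := by
  have key : ∀ p q : S, (Sum.inl (Sum.inr p) : (M.V ⊕ S) ⊕ M.X) = Sum.inl (Sum.inr q) → p = q := by
    intro p q e; simpa using e
  exact key p q e

theorem op_ne_np (p : M.V ⊕ M.X) (f : S) : op h p ≠ np h f := by
  have key : ∀ (p : M.V ⊕ M.X) (f : S),
      (Sum.map Sum.inl id p : (M.V ⊕ S) ⊕ M.X) ≠ Sum.inl (Sum.inr f) := by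
    rintro (p | p) f <;> simp
  exact key p f

theorem org_od (d : M.D) : (N h).org (od h d) = op h (M.org d) := rfl
theorem org_so (t : M.TS S) : (N h).org (so h t) = op h (M.org t.1) := rfl
theorem org_si (t : M.TS S) : (N h).org (si h t) = np h ⟨M.fac t.1, t.2.1⟩ := rfl
theorem rev_od (d : M.D) : (N h).rev (od h d) = od h (M.rev d) := rfl
theorem rev_so (t : M.TS S) : (N h).rev (so h t) = si h t := rfl
theorem rev_si (t : M.TS S) : (N h).rev (si h t) = so h t := rfl

theorem cr_od (d : M.D) : (N h).cr (od h d) ↔ M.cr d := by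
  unfold Drawing.cr
  constructor
  · rintro ⟨x, hx⟩
    refine ⟨x, ?_⟩
    have key : ∀ (p : M.V ⊕ M.X) (x : M.X),
        (Sum.map Sum.inl id p : (M.V ⊕ S) ⊕ M.X) = Sum.inr x → p = Sum.inr x := by
      rintro (p | p) x e <;> simp at e ⊢; exact e
    exact key _ _ hx
  · rintro ⟨x, hx⟩
    refine ⟨x, ?_⟩
    rw [org_od, hx]; rfl

theorem not_cr_so (t : M.TS S) : ¬ (N h).cr (so h t) := by
  have := (cr_od h t.1).not.2 t.2.2
  rwa [cr_congr (M := N h) (d := so h t) (e := od h t.1) rfl]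

theorem not_cr_si (t : M.TS S) : ¬ (N h).cr (si h t) := by
  rintro ⟨x, hx⟩
  have key : ∀ (f : S) (x : M.X), (Sum.inl (Sum.inr f) : (M.V ⊕ S) ⊕ M.X) ≠ Sum.inr x := by
    intro f x; simp
  exact key _ _ hx

theorem rot_od_cr {d : M.D} (hd : M.cr d) : (N h).rot (od h d) = od h (M.rot d) := by
  change M.coneRot S (Sum.inl d) = Sum.inl (M.rot d)
  simp [coneRot, hd]

theorem far_od (d : M.D) : (N h).far (od h d) = od h (M.far d) := by
  by_cases hc : M.cr (M.rev d)
  · rw [far_of_cr hc, far_of_cr (by rw [rev_od, cr_od]; exact hc), rev_od, rot_od_cr h hc,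
      rot_od_cr h (by simpa using hc), rev_od]
  · rw [far_of_not hc, far_of_not (by rw [rev_od, cr_od]; exact hc), rev_od]

theorem far_so (t : M.TS S) : (N h).far (so h t) = si h t := by
  rw [far_of_not (by rw [rev_so]; exact not_cr_si h t), rev_so]

theorem far_si (t : M.TS S) : (N h).far (si h t) = so h t := by
  rw [far_of_not (by rw [rev_si]; exact not_cr_so h t), rev_si]

/-- old faces -/
def ofc (h : (M.cone S).Exact) (f : M.F) (hf : f ∉ S) : (N h).F :=
  (Sum.inl ⟨f, hf⟩ : {f : M.F // f ∉ S} ⊕ M.TS S)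

/-- new triangles -/
def tri (h : (M.cone S).Exact) (t : M.TS S) : (N h).F :=
  (Sum.inr t : {f : M.F // f ∉ S} ⊕ M.TS S)

theorem ofc_ne_tri (f : M.F) (hf : f ∉ S) (t : M.TS S) : ofc h f hf ≠ tri h t := by
  have key : (Sum.inl ⟨f, hf⟩ : {f : M.F // f ∉ S} ⊕ M.TS S) ≠ Sum.inr t := by simp
  exact key

theorem ofc_inj {f g : M.F} {hf : f ∉ S} {hg : g ∉ S} (e : ofc h f hf = ofc h g hg) : f = g := by
  have key : (Sum.inl ⟨f, hf⟩ : {f : M.F // f ∉ S} ⊕ M.TS S) = Sum.inl ⟨g, hg⟩ → f = g := by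
    intro e; simpa using e
  exact key e

theorem tri_inj {t s : M.TS S} (e : tri h t = tri h s) : t = s := by
  have key : (Sum.inr t : {f : M.F // f ∉ S} ⊕ M.TS S) = Sum.inr s → t = s := by
    intro e; simpa using e
  exact key e

theorem fac_od_not {d : M.D} (hf : M.fac d ∉ S) : (N h).fac (od h d) = ofc h (M.fac d) hf := by
  change (M.cone S).fac (Sum.inl d) = _
  simp only [cone, hf, dite_false]
  rfl

theorem fac_od {d : M.D} (hf : M.fac d ∈ S) (hc : ¬ M.cr d) :
    (N h).fac (od h d) = tri h ⟨d, hf, hc⟩ := by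
  change (M.cone S).fac (Sum.inl d) = _
  simp only [cone, hf, hc, dite_true, dite_false]
  rfl

theorem fac_od_cr {d : M.D} (hf : M.fac d ∈ S) (hc : M.cr d) :
    ∃ t, (N h).fac (od h d) = tri h t := by
  refine ⟨⟨preal d, by rw [fac_preal]; exact hf, not_cr_preal _⟩, ?_⟩
  change (M.cone S).fac (Sum.inl d) = _
  simp only [cone, hf, hc, dite_true]
  rfl

theorem fac_so (t : M.TS S) : (N h).fac (so h t) = tri h ((nextT S).symm t) := rfl
theorem fac_si (t : M.TS S) : (N h).fac (si h t) = tri h t := rfl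

/-- the darts on a new triangle -/
theorem on_tri {x : (N h).D} {t : M.TS S} (hx : ¬ (N h).cr x) (e : (N h).fac x = tri h t) :
    x = od h t.1 ∨ x = so h (nextT S t) ∨ x = si h t := by
  rcases dcases h x with ⟨d, rfl⟩ | ⟨s, rfl⟩ | ⟨s, rfl⟩
  · rw [cr_od] at hx
    by_cases hf : M.fac d ∈ S
    · rw [fac_od h hf hx] at e
      have := tri_inj h e
      subst this
      exact Or.inl rfl
    · rw [fac_od_not h hf] at e
      exact absurd e (ofc_ne_tri h _ _ _)
  · rw [fac_so] at e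
    have := tri_inj h e
    subst this
    right; left; simp
  · rw [fac_si] at e
    have := tri_inj h e
    subst this
    right; right; rfl

/-- the darts on an old face -/
theorem on_ofc {x : (N h).D} {f : M.F} {hf : f ∉ S} (hx : ¬ (N h).cr x)
    (e : (N h).fac x = ofc h f hf) : ∃ d, x = od h d ∧ ¬ M.cr d ∧ M.fac d = f := by
  rcases dcases h x with ⟨d, rfl⟩ | ⟨s, rfl⟩ | ⟨s, rfl⟩
  · rw [cr_od] at hx
    by_cases hf : M.fac d ∈ S
    · rw [fac_od h hf hx] at e
      exact absurd e.symm (ofc_ne_tri h _ _ _)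
    · rw [fac_od_not h hf] at e
      exact ⟨d, rfl, hx, ofc_inj h e⟩
  · rw [fac_so] at e
    exact absurd e.symm (ofc_ne_tri h _ _ _)
  · rw [fac_si] at e
    exact absurd e.symm (ofc_ne_tri h _ _ _)

theorem fcases (f : (N h).F) : (∃ g hg, f = ofc h g hg) ∨ ∃ t, f = tri h t := by
  have key : ∀ f : {f : M.F // f ∉ S} ⊕ M.TS S,
      (∃ g, ∃ hg : g ∉ S, f = Sum.inl ⟨g, hg⟩) ∨ ∃ t, f = Sum.inr t := by
    rintro (⟨g, hg⟩ | t)
    · exact Or.inl ⟨g, hg, rfl⟩
    · exact Or.inr ⟨t, rfl⟩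
  exact key f

theorem simple (G : M.Good) (ok : M.ConeOK S) : (N h).IsSimple := by
  have hT : ∀ t s : M.TS S, M.org t.1 = M.org s.1 → M.fac t.1 = M.fac s.1 → t = s := by
    intro t s h1 h2
    exact Subtype.ext (ok.inj t.1 s.1 t.2.1 t.2.2 s.2.2 h2 h1)
  refine ⟨?_, ?_, ?_⟩
  · intro d u hd hfar
    have he : (N h).org ((N h).far d) = (N h).org d := by rw [hd, hfar]
    have hn : ¬ (N h).cr d := (not_cr_iff _).2 ⟨u, hd⟩
    rcases dcases h d with ⟨a, rfl⟩ | ⟨t, rfl⟩ | ⟨t, rfl⟩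
    · rw [far_od, org_od, org_od] at he
      exact G.no_loop ((cr_od h a).not.1 hn) (op_inj h he)
    · rw [far_so, org_so, org_si] at he
      exact op_ne_np h _ _ he.symm
    · rw [far_si, org_so, org_si] at he
      exact op_ne_np h _ _ he
  · intro d e u v hd he hfd hfe
    have h1 : (N h).org d = (N h).org e := by rw [hd, he]
    have h2 : (N h).org ((N h).far d) = (N h).org ((N h).far e) := by rw [hfd, hfe]
    have hn : ¬ (N h).cr d := (not_cr_iff _).2 ⟨u, hd⟩
    rcases dcases h d with ⟨a, rfl⟩ | ⟨t, rfl⟩ | ⟨t, rfl⟩ <;>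
    rcases dcases h e with ⟨b, rfl⟩ | ⟨s, rfl⟩ | ⟨s, rfl⟩ <;>
    simp only [far_od, far_so, far_si, org_od, org_so, org_si] at h1 h2
    · rw [G.no_multi ((cr_od h a).not.1 hn) (op_inj h h1) (op_inj h h2)]
    · exact absurd h2 (op_ne_np h _ _)
    · exact absurd h1 (op_ne_np h _ _)
    · exact absurd h2.symm (op_ne_np h _ _)
    · have := np_inj h h2
      rw [hT t s (op_inj h h1) (by simpa using this)]
    · exact absurd h1 (op_ne_np h _ _)
    · exact absurd h1.symm (op_ne_np h _ _)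
    · exact absurd h1.symm (op_ne_np h _ _)
    · have := np_inj h h1
      rw [hT t s (op_inj h h2) (by simpa using this)]
  · intro d hd
    rcases dcases h d with ⟨a, rfl⟩ | ⟨t, rfl⟩ | ⟨t, rfl⟩
    · have hc := (cr_od h a).1 hd
      rw [rot_od_cr h hc, rev_od, rev_od, org_od, org_od]
      intro e
      exact G.simple.cross_ends a hc (op_inj h e)
    · exact absurd hd (not_cr_so h t)
    · exact absurd hd (not_cr_si h t)

theorem adj_op {p q : M.V ⊕ M.X} (e : adj (M := M) p q) :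
    adj (M := N h) (op h p) (op h q) := by
  obtain ⟨d, h1, h2, h3⟩ := e
  exact ⟨od h d, (cr_od h d).not.2 h1, by rw [org_od, h2], by rw [far_od, org_od, h3]⟩

theorem adj_spoke (t : M.TS S) :
    adj (M := N h) (op h (M.org t.1)) (np h ⟨M.fac t.1, t.2.1⟩) :=
  ⟨so h t, not_cr_so h t, org_so h t, by rw [far_so, org_si]⟩

/-- two vertices on one face -/
theorem face (G : M.Good) {x y : (N h).D} (hx : ¬ (N h).cr x) (hy : ¬ (N h).cr y)
    (e : (N h).fac x = (N h).fac y) (hn : (N h).org x ≠ (N h).org y) :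
    adj (M := N h) ((N h).org x) ((N h).org y) := by
  rcases fcases h ((N h).fac y) with ⟨g, hg, hf⟩ | ⟨t, ht⟩
  · obtain ⟨a, rfl, ha, ha'⟩ := on_ofc h hx (e.trans hf)
    obtain ⟨b, rfl, hb, hb'⟩ := on_ofc h hy hf
    rw [org_od, org_od] at hn ⊢
    exact adj_op h (G.face ha hb (ha'.trans hb'.symm) (fun e => hn (by rw [e])))
  · have hnt : M.fac ((nextT S t).1) = M.fac t.1 := fac_nreal t.1
    have s2 : np h ⟨M.fac (nextT S t).1, (nextT S t).2.1⟩ = np h ⟨M.fac t.1, t.2.1⟩ := by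
      congr 1; exact Subtype.ext hnt
    have A1 := adj_spoke h t
    have A2 := adj_spoke h (nextT S t)
    rw [s2] at A2
    have A3 : M.org t.1 ≠ M.org (nextT S t).1 →
        adj (M := N h) (op h (M.org t.1)) (op h (M.org (nextT S t).1)) := fun hne =>
      adj_op h (G.face t.2.2 (nextT S t).2.2 hnt.symm hne)
    rcases on_tri h hx (e.trans ht) with rfl | rfl | rfl <;>
    rcases on_tri h hy ht with rfl | rfl | rfl <;>
    simp only [org_od, org_so, org_si] at hn ⊢
    · exact absurd rfl hn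
    · exact A3 (fun e => hn (by rw [e]))
    · exact A1
    · exact adj_symm (A3 (fun e => hn (by rw [e])))
    · exact absurd rfl hn
    · exact A2
    · exact adj_symm A1
    · exact adj_symm A2
    · exact absurd rfl hn

theorem nreal_org {d : M.D} (h' : ¬ M.cr (M.rev d)) : M.org (nreal d) = M.org (M.rev d) := by
  have : ¬ M.cr (M.nxt d) := by rw [cr_congr (org_nxt d)]; exact h'
  unfold nreal
  rw [if_neg this, org_nxt]

/-- crossing an old edge out of a new triangle -/
theorem across1 (ok : M.ConeOK S) {k : M.D} (hk : ¬ M.cr k) (hk' : ¬ M.cr (M.rev k))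
    (hS : M.fac k ∈ S) {x y : (N h).D} (hx : ¬ (N h).cr x) (hy : ¬ (N h).cr y)
    (ex : (N h).fac x = (N h).fac (od h k)) (ey : (N h).fac y = (N h).fac (od h (M.rev k)))
    (h1 : (N h).org x ≠ (N h).org (od h k)) (h2 : (N h).org x ≠ (N h).org (od h (M.rev k))) :
    adj (M := N h) ((N h).org x) ((N h).org y) := by
  obtain ⟨o1, o2⟩ := ok.across k hS hk hk'
  rw [fac_od h hS hk] at ex
  rw [fac_od_not h o1] at ey
  obtain ⟨b, rfl, hb, hb'⟩ := on_ofc h hy ey
  obtain ⟨t', ht1, ht2, ht3⟩ := o2 b hb hb'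
  rcases on_tri h hx ex with rfl | rfl | rfl
  · exact absurd rfl h1
  · exfalso
    apply h2
    rw [org_so, org_od]
    congr 1
    exact nreal_org hk'
  · have hS' : M.fac t' ∈ S := ht2 ▸ hS
    have := adj_spoke h ⟨t', hS', ht1⟩
    change adj (M := N h) (np h ⟨M.fac k, hS⟩) (op h (M.org b))
    rw [← ht3]
    have e2 : np h ⟨M.fac t', hS'⟩ = np h ⟨M.fac k, hS⟩ := by
      congr 1; exact Subtype.ext ht2
    rw [e2] at this
    exact adj_symm this

/-- crossing a spoke -/
theorem across2 (G : M.Good) (t : M.TS S) {x y : (N h).D} (hx : ¬ (N h).cr x)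
    (hy : ¬ (N h).cr y)
    (ex : (N h).fac x = (N h).fac (so h t)) (ey : (N h).fac y = (N h).fac (si h t))
    (h1 : (N h).org x ≠ (N h).org (so h t)) (h2 : (N h).org x ≠ (N h).org (si h t))
    (h3 : (N h).org y ≠ (N h).org (so h t)) (h4 : (N h).org y ≠ (N h).org (si h t))
    (hn : (N h).org x ≠ (N h).org y) :
    adj (M := N h) ((N h).org x) ((N h).org y) := by
  rw [fac_so] at ex
  rw [fac_si] at ey
  have hp : M.fac ((nextT S).symm t).1 = M.fac t.1 := fac_preal t.1
  have hq : M.fac (nextT S t).1 = M.fac t.1 := fac_nreal t.1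
  rcases on_tri h hx ex with rfl | rfl | rfl
  · rcases on_tri h hy ey with rfl | rfl | rfl
    · exact absurd rfl h3
    · rw [org_od, org_so] at hn ⊢
      exact adj_op h (G.face ((nextT S).symm t).2.2 (nextT S t).2.2 (hp.trans hq.symm)
        (fun e => hn (by rw [e])))
    · exact absurd rfl h4
  · exfalso; apply h1; simp
  · exfalso; apply h2
    rw [org_si, org_si]
    congr 1; exact Subtype.ext hp

theorem maximal (G : M.Good) (ok : M.ConeOK S) : (N h).IsMaximal := by
  have hs := simple h G ok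
  refine ⟨?_, ?_⟩
  · intro d e u v hd he hf hn
    rw [graph_adj_iff hs, ← hd, ← he]
    exact face h G ((not_cr_iff _).2 ⟨u, hd⟩) ((not_cr_iff _).2 ⟨v, he⟩) hf
      (by rw [hd, he]; intro e; exact hn (Sum.inl_injective e))
  · intro k d e u v hk hk' hd he hfd hfe h1 h2 h3 h4 hn
    rw [graph_adj_iff hs, ← hd, ← he]
    have hdn : ¬ (N h).cr d := (not_cr_iff _).2 ⟨u, hd⟩
    have hen : ¬ (N h).cr e := (not_cr_iff _).2 ⟨v, he⟩
    have hne : (N h).org d ≠ (N h).org e := by
      rw [hd, he]; intro e; exact hn (Sum.inl_injective e)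
    rw [← hd] at h1 h2
    rw [← he] at h3 h4
    rcases dcases h k with ⟨a, rfl⟩ | ⟨t, rfl⟩ | ⟨t, rfl⟩
    · rw [cr_od] at hk
      rw [rev_od, cr_od] at hk'
      rw [rev_od] at hfe h2 h4
      by_cases hS : M.fac a ∈ S
      · exact across1 h ok hk hk' hS hdn hen hfd hfe h1.symm h2.symm
      · by_cases hS' : M.fac (M.rev a) ∈ S
        · refine adj_symm (across1 h ok (k := M.rev a) hk' (by simpa using hk) hS' hen hdn hfe
            (by simpa using hfd) h4.symm (by simpa using h3.symm))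
        · rw [fac_od_not h hS] at hfd
          rw [fac_od_not h hS'] at hfe
          obtain ⟨b, rfl, hb, hb'⟩ := on_ofc h hdn hfd
          obtain ⟨c, rfl, hc, hc'⟩ := on_ofc h hen hfe
          simp only [org_od] at h1 h2 h3 h4 hne ⊢
          exact adj_op h (G.across hk hk' hb hc hb' hc' (fun e => h1 (by rw [e]))
            (fun e => h2 (by rw [e])) (fun e => h3 (by rw [e])) (fun e => h4 (by rw [e]))
            (fun e => hne (by rw [e])))
    · rw [rev_so] at hfe h2 h4
      exact across2 h G t hdn hen hfd hfe h1.symm h2.symm h3.symm h4.symm hne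
    · rw [rev_si] at hfe h2 h4
      exact adj_symm (across2 h G t hen hdn hfe hfd h4.symm h3.symm h2.symm h1.symm hne.symm)

end U5

/-- U5 -/
theorem u5 (h0 : TwoConnStmt) : ConeGoodStmt := by
  intro M G S ok h
  have hs := U5.simple h G ok
  have hm := U5.maximal h G ok
  refine ⟨hs, hm, h0 _ hs hm ?_⟩
  have h1 : 2 < Nat.card M.V := G.conn2.1
  have h2 : Nat.card M.V ≤ Nat.card (M.V ⊕ S) := by
    have : Finite (M.V ⊕ S) := h.valid.finV
    exact Nat.card_le_card_of_injective (Sum.inl : M.V → M.V ⊕ S) Sum.inl_injective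
  exact lt_of_lt_of_le h1 h2

end Pool.Agent.H74.OneP
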